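import Pool.Agent.H759R2.Kad.Props

open scoped ComplexOrder InnerProductSpace ComplexConjugate
open Finset

noncomputable section

set_option linter.unusedSectionVars false
set_option linter.unusedVariables false
set_option linter.unusedSimpArgs false

namespace H759R2.Kad

universe u v

namespace Phtr

section state

variable {A : Type u} [CStarAlgebra A] [PartialOrder A] [StarOrderedRing A] {τ : A →ₗ[ℂ] ℂ}

theorem tau_star (h : IsTracialState τ) (y : A) : τ (star y) = conj (τ y) := by
  have h0 := (Complex.nonneg_iff.1 (h.pos y)).2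
  have h1 := (Complex.nonneg_iff.1 (h.pos (y + 1))).2
  have h2 := (Complex.nonneg_iff.1 (h.pos (y + Complex.I • (1 : A)))).2
  have e1 : star (y + 1) * (y + 1) = star y * y + star y + y + 1 := by
    rw [star_add, star_one, add_mul, mul_add, mul_one, one_mul]; abel
  have e2 : star (y + Complex.I • (1 : A)) * (y + Complex.I • (1 : A)) =
      star y * y + Complex.I • star y - Complex.I • y + 1 := by
    have hs : star (Complex.I • (1 : A)) = -(Complex.I • (1 : A)) := by
      rw [star_smul, star_one, Complex.star_def, Complex.conj_I, neg_smul]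
    have h3 : (Complex.I • (1 : A)) * (Complex.I • (1 : A)) = -1 := by
      rw [smul_mul_smul_comm, Complex.I_mul_I, mul_one, neg_smul, one_smul]
    rw [star_add, hs, add_mul, mul_add, mul_add, neg_mul, neg_mul, h3, smul_mul_assoc, one_mul,
      mul_smul_comm, mul_one, neg_neg]
    abel
  rw [e1] at h1
  rw [e2] at h2
  simp only [map_add, map_sub, map_smul, h.one, Complex.add_im, Complex.sub_im, smul_eq_mul,
    Complex.mul_im, Complex.I_re, Complex.I_im, Complex.one_im, zero_mul, one_mul] at h1 h2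
  apply Complex.ext
  · rw [Complex.conj_re]; linarith
  · rw [Complex.conj_im]; linarith

theorem tau_sq (h : IsTracialState τ) (y : A) : ‖τ y‖ ^ 2 ≤ (τ (star y * y)).re := by
  have h0 := (Complex.nonneg_iff.1 (h.pos (y - τ y • (1 : A)))).1
  have e1 : star (y - τ y • (1 : A)) * (y - τ y • (1 : A)) =
      star y * y - τ y • star y - conj (τ y) • y + (conj (τ y) * τ y) • (1 : A) := by
    rw [star_sub, star_smul, star_one, sub_mul, mul_sub, mul_sub]
    simp only [mul_smul_comm, smul_mul_assoc, mul_one, one_mul, smul_smul, Complex.star_def]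
    rw [mul_comm (τ y)]
    abel
  rw [e1] at h0
  simp only [map_add, map_sub, map_smul, h.one, smul_eq_mul, mul_one] at h0
  rw [tau_star h y] at h0
  have e2 : conj (τ y) * τ y = ((‖τ y‖ ^ 2 : ℝ) : ℂ) := by
    rw [Complex.conj_mul']; norm_cast
  have e3 : τ y * conj (τ y) = ((‖τ y‖ ^ 2 : ℝ) : ℂ) := by
    rw [mul_comm, e2]
  rw [e2, e3] at h0
  simp only [Complex.add_re, Complex.sub_re, Complex.ofReal_re] at h0
  linarith

end state

section mat

variable {ι : Type} [Fintype ι] [DecidableEq ι] {A : Type u} [CStarAlgebra A]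

/-- keep column `c` -/
def col (c : ι) : CStarMatrix ι ι A →ₗ[ℂ] CStarMatrix ι ι A where
  toFun Z := CStarMatrix.ofMatrix fun i j => if j = c then Z i j else 0
  map_add' X Y := by
    ext i j
    show (if j = c then X i j + Y i j else 0) =
      (if j = c then X i j else 0) + (if j = c then Y i j else 0)
    split_ifs <;> simp
  map_smul' r X := by
    ext i j
    show (if j = c then r • X i j else 0) = r • (if j = c then X i j else 0)
    split_ifs <;> simp

theorem col_apply (c : ι) (Z : CStarMatrix ι ι A) (i j : ι) :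
    col c Z i j = if j = c then Z i j else 0 := rfl

/-- right multiplication -/
def rmul (x : CStarMatrix ι ι A) : CStarMatrix ι ι A →ₗ[ℂ] CStarMatrix ι ι A where
  toFun Z := Z * x
  map_add' X Y := add_mul _ _ _
  map_smul' r X := smul_mul_assoc _ _ _

variable {R : ℕ} [NeZero R]

theorem sum_col (ω : ι → ZMod R) (Z : CStarMatrix ι ι A) :
    ∑ c, chi ω c • col c Z = Z * ph A ω := by
  ext i j
  have h1 : (∑ c, chi ω c • col c Z) i j = ∑ c, chi ω c • (if j = c then Z i j else 0) := by
    have : ∀ s : Finset ι, (∑ c ∈ s, chi ω c • col c Z) i j =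
        ∑ c ∈ s, chi ω c • (if j = c then Z i j else 0) := by
      intro s
      induction s using Finset.induction_on with
      | empty => simp
      | insert a s ha ih =>
        rw [Finset.sum_insert ha, Finset.sum_insert ha, CStarMatrix.add_apply, ih,
          CStarMatrix.smul_apply, col_apply]
    exact this univ
  rw [h1, CStarMatrix.mul_apply]
  rw [Finset.sum_eq_single j, Finset.sum_eq_single j]
  · simp [ph]
  · intro b _ hb
    simp [ph, Matrix.diagonal_apply_ne _ hb]
  · simp
  · intro b _ hb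
    simp [Ne.symm hb]
  · simp

theorem wv_eq (x : CStarMatrix ι ι A) (ω : ι → ZMod R) (k : ℕ) :
    wv col (rmul x) x ω k = (x * ph A ω) ^ (k + 1) := by
  induction k with
  | zero => rw [wv, sum_col, zero_add, pow_one]
  | succ k ih =>
    rw [wv, sum_col, ih]
    show (x * ph A ω) ^ (k + 1) * x * ph A ω = _
    rw [pow_succ _ (k + 1), mul_assoc]

theorem ph_mem (ω : ι → ZMod R) : ph A ω ∈ unitary (CStarMatrix ι ι A) := by
  have hchi : ∀ c, conj (chi ω c) * chi ω c = 1 := by
    intro c
    rw [Complex.conj_mul']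
    have : ‖chi ω c‖ = 1 := by
      unfold chi
      exact AddChar.norm_apply _ _
    rw [this]; norm_num
  have hchi' : ∀ c, chi ω c * conj (chi ω c) = 1 := fun c => by rw [mul_comm, hchi]
  rw [Unitary.mem_iff]
  constructor
  · ext i j
    rw [CStarMatrix.mul_apply, Finset.sum_eq_single i]
    · by_cases hij : i = j
      · subst hij
        simp [ph, CStarMatrix.star_apply, smul_smul, hchi', CStarMatrix.one_apply]
      · simp [ph, CStarMatrix.star_apply, Matrix.diagonal_apply_ne _ hij,
          CStarMatrix.one_apply, hij]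
    · intro b _ hb
      simp [ph, CStarMatrix.star_apply, Matrix.diagonal_apply_ne _ hb]
    · simp
  · ext i j
    rw [CStarMatrix.mul_apply, Finset.sum_eq_single i]
    · by_cases hij : i = j
      · subst hij
        simp [ph, CStarMatrix.star_apply, smul_smul, hchi, CStarMatrix.one_apply]
      · simp [ph, CStarMatrix.star_apply, Matrix.diagonal_apply_ne _ (Ne.symm hij),
          CStarMatrix.one_apply, hij]
    · intro b _ hb
      simp [ph, CStarMatrix.star_apply, Matrix.diagonal_apply_ne _ (Ne.symm hb)]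
    · simp

end mat

end Phtr

open Phtr in
theorem prove_phtr (h1 : St_orth) (h2 : St_expand.{u}) : St_phtr.{u} := by
  intro ι _ _ R _ A _ _ _ τ hτ x hx k hk
  obtain ⟨Y, hY1, hY2, hY3⟩ := h2 ι R (CStarMatrix ι ι A) col (rmul x) x (by
    intro c c' hcc z
    ext i j
    rw [col_apply, col_apply]
    by_cases h : j = c
    · rw [if_pos h, if_neg (fun h' => hcc (h.symm.trans h'))]
      rfl
    · rw [if_neg h]
      rfl) k hk
  set G : ℂ := ((Fintype.card (ι → ZMod R) : ℕ) : ℂ) with hG
  -- the traces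
  have htr : ∀ ω : ι → ZMod R, tr τ ι ((x * ph A ω) ^ (k + 1)) =
      ∑ f, Chi f ω * tr τ ι (Y f) := by
    intro ω
    rw [← wv_eq, hY1, map_sum]
    exact Finset.sum_congr rfl fun f _ => by rw [map_smul, smul_eq_mul]
  have hA : ∑ ω : ι → ZMod R, ((‖tr τ ι ((x * ph A ω) ^ (k + 1))‖ ^ 2 : ℝ) : ℂ) =
      G * ∑ f, ((‖tr τ ι (Y f)‖ ^ 2 : ℝ) : ℂ) := by
    have e1 : ∀ ω : ι → ZMod R, ((‖tr τ ι ((x * ph A ω) ^ (k + 1))‖ ^ 2 : ℝ) : ℂ) =
        ∑ f, ∑ g, (conj (tr τ ι (Y f)) * tr τ ι (Y g)) * (conj (Chi f ω) * Chi g ω) := by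
      intro ω
      have e2 : ((‖tr τ ι ((x * ph A ω) ^ (k + 1))‖ ^ 2 : ℝ) : ℂ) =
          conj (tr τ ι ((x * ph A ω) ^ (k + 1))) * tr τ ι ((x * ph A ω) ^ (k + 1)) := by
        rw [Complex.conj_mul']; norm_cast
      rw [e2, htr, map_sum, Finset.sum_mul_sum]
      refine Finset.sum_congr rfl fun f _ => Finset.sum_congr rfl fun g _ => ?_
      rw [map_mul]; ring
    simp only [e1]
    rw [Finset.sum_comm, Finset.mul_sum]
    refine Finset.sum_congr rfl fun f _ => ?_
    rw [Finset.sum_comm]
    have e3 : ∀ g, ∑ ω, (conj (tr τ ι (Y f)) * tr τ ι (Y g)) * (conj (Chi f ω) * Chi g ω) =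
        (conj (tr τ ι (Y f)) * tr τ ι (Y g)) * (if f = g then G else 0) := by
      intro g
      rw [← Finset.mul_sum, h1]
    simp only [e3, mul_ite, mul_zero, Finset.sum_ite_eq, Finset.mem_univ, if_true]
    rw [Complex.conj_mul', mul_comm]
    norm_cast
  -- the matrices
  have hB : G * ∑ f, tr τ ι (star (Y f) * Y f) = G * (Fintype.card ι : ℂ) := by
    have e1 : ∀ ω : ι → ZMod R, (Fintype.card ι : ℂ) =
        ∑ f, ∑ g, tr τ ι (star (Y f) * Y g) * (conj (Chi f ω) * Chi g ω) := by
      intro ω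
      have hu : x * ph A ω ∈ unitary (CStarMatrix ι ι A) := mul_mem hx (ph_mem ω)
      have hw : (x * ph A ω) ^ (k + 1) ∈ unitary (CStarMatrix ι ι A) := pow_mem hu _
      have e2 : tr τ ι (star ((x * ph A ω) ^ (k + 1)) * (x * ph A ω) ^ (k + 1)) =
          (Fintype.card ι : ℂ) := by
        rw [(Unitary.mem_iff.1 hw).1, tr_apply]
        simp [CStarMatrix.one_apply, hτ.one]
      rw [← e2, ← wv_eq, hY1, star_sum, Finset.sum_mul_sum, map_sum]
      refine Finset.sum_congr rfl fun f _ => ?_
      rw [map_sum]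
      refine Finset.sum_congr rfl fun g _ => ?_
      rw [star_smul, smul_mul_smul_comm, map_smul, smul_eq_mul, mul_comm]
      rfl
    have e4 : ∑ ω : ι → ZMod R, (Fintype.card ι : ℂ) = G * (Fintype.card ι : ℂ) := by
      rw [Finset.sum_const, Finset.card_univ, nsmul_eq_mul]
    rw [← e4, Finset.sum_congr rfl fun ω _ => e1 ω, Finset.sum_comm, Finset.mul_sum]
    refine Finset.sum_congr rfl fun f _ => ?_
    rw [Finset.sum_comm]
    have e3 : ∀ g, ∑ ω, tr τ ι (star (Y f) * Y g) * (conj (Chi f ω) * Chi g ω) =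
        tr τ ι (star (Y f) * Y g) * (if f = g then G else 0) := by
      intro g
      rw [← Finset.mul_sum, h1]
    simp only [e3, mul_ite, mul_zero, Finset.sum_ite_eq, Finset.mem_univ, if_true]
    rw [mul_comm]
  have hG0 : G ≠ 0 := by
    rw [hG]
    exact Nat.cast_ne_zero.2 Fintype.card_ne_zero
  have hB' : ∑ f, (tr τ ι (star (Y f) * Y f)).re = (Fintype.card ι : ℝ) := by
    have := congrArg Complex.re (mul_left_cancel₀ hG0 hB)
    simpa using this
  have hC : ∀ f, ‖tr τ ι (Y f)‖ ^ 2 ≤ (k + 1) * (tr τ ι (star (Y f) * Y f)).re := by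
    intro f
    have hpos : ∀ i j, 0 ≤ (τ (star (Y f i j) * Y f i j)).re := fun i j =>
      (Complex.nonneg_iff.1 (hτ.pos _)).1
    have htrr : (tr τ ι (star (Y f) * Y f)).re =
        ∑ j, ∑ i, (τ (star (Y f i j) * Y f i j)).re := by
      rw [tr_apply, Complex.re_sum]
      refine Finset.sum_congr rfl fun j _ => ?_
      rw [CStarMatrix.mul_apply, map_sum, Complex.re_sum]
      refine Finset.sum_congr rfl fun i _ => ?_
      rw [CStarMatrix.star_apply]
    by_cases h0 : Y f = 0
    · rw [h0]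
      simp
    · have hc := hY2 f h0
      set s := univ.filter fun c => f c ≠ 0 with hs
      have e1 : tr τ ι (Y f) = ∑ c ∈ s, τ (Y f c c) := by
        rw [tr_apply]
        symm
        apply Finset.sum_subset (Finset.subset_univ _)
        intro c _ hcs
        have hfc : f c = 0 := by
          by_contra h
          exact hcs (by simp [hs, h])
        have h3 := congrArg (fun Z : CStarMatrix ι ι A => Z c c) (hY3 f c hfc)
        simp only [col_apply, if_true] at h3
        rw [h3]
        simp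
      have e2 : ‖tr τ ι (Y f)‖ ^ 2 ≤ (s.card : ℝ) * ∑ c ∈ s, ‖τ (Y f c c)‖ ^ 2 := by
        rw [e1]
        refine le_trans (pow_le_pow_left₀ (norm_nonneg _) (norm_sum_le _ _) 2) ?_
        exact sq_sum_le_card_mul_sum_sq
      have e3 : ∑ c ∈ s, ‖τ (Y f c c)‖ ^ 2 ≤ (tr τ ι (star (Y f) * Y f)).re := by
        rw [htrr]
        calc ∑ c ∈ s, ‖τ (Y f c c)‖ ^ 2 ≤ ∑ c ∈ s, ∑ i, (τ (star (Y f i c) * Y f i c)).re := by
              refine Finset.sum_le_sum fun c _ => (tau_sq hτ _).trans ?_
              exact Finset.single_le_sum (f := fun i => (τ (star (Y f i c) * Y f i c)).re)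
                (fun i _ => hpos i c) (Finset.mem_univ c)
          _ ≤ ∑ c, ∑ i, (τ (star (Y f i c) * Y f i c)).re :=
              Finset.sum_le_sum_of_subset_of_nonneg (Finset.subset_univ _)
                fun c _ _ => Finset.sum_nonneg fun i _ => hpos i c
      have e4 : (s.card : ℝ) ≤ k + 1 := by exact_mod_cast hc
      have e5 : 0 ≤ ∑ c ∈ s, ‖τ (Y f c c)‖ ^ 2 := Finset.sum_nonneg fun c _ => by positivity
      calc ‖tr τ ι (Y f)‖ ^ 2 ≤ (s.card : ℝ) * ∑ c ∈ s, ‖τ (Y f c c)‖ ^ 2 := e2
        _ ≤ (k + 1) * ∑ c ∈ s, ‖τ (Y f c c)‖ ^ 2 := mul_le_mul_of_nonneg_right e4 e5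
        _ ≤ (k + 1) * (tr τ ι (star (Y f) * Y f)).re :=
            mul_le_mul_of_nonneg_left e3 (by positivity)
  have hA' : ∑ ω : ι → ZMod R, ‖tr τ ι ((x * ph A ω) ^ (k + 1))‖ ^ 2 =
      (Fintype.card (ι → ZMod R) : ℝ) * ∑ f, ‖tr τ ι (Y f)‖ ^ 2 := by
    have h3 : ((∑ ω : ι → ZMod R, ‖tr τ ι ((x * ph A ω) ^ (k + 1))‖ ^ 2 : ℝ) : ℂ) =
        (((Fintype.card (ι → ZMod R) : ℝ) * ∑ f, ‖tr τ ι (Y f)‖ ^ 2 : ℝ) : ℂ) := by
      push_cast
      push_cast at hA
      rw [hA]
    exact_mod_cast h3
  rw [hA']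
  refine mul_le_mul_of_nonneg_left ?_ (by positivity)
  calc ∑ f, ‖tr τ ι (Y f)‖ ^ 2 ≤ ∑ f, (k + 1) * (tr τ ι (star (Y f) * Y f)).re :=
        Finset.sum_le_sum fun f _ => hC f
    _ = (k + 1) * Fintype.card ι := by rw [← Finset.mul_sum, hB']

end H759R2.Kad
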